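import Mathlib
import Pool.Prelude.Def_F_c31e40fa
import Pool.Agent.T9h9.Cusp.Width4

set_option autoImplicit false

open N62a1eb23

namespace Pool.Agent.Results.MP_fcb70f_an.CuspChannelWidth

open Pool.Agent.H712R2 in
/-- The exact width, uniformly in the degree, of the channel of the exterior of the Multibrot set
`M_n` at the cusp `a_n = (1 - 1 / n) n ^ (-1 / (n - 1))` of its main component: the order of the
distance from the points `a_n + t`, `t > 0`, of the axis of the channel to `M_n`.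

Write `L_i` for the `i`-th iterated logarithm of `n`.  There is an absolute constant `C` such that
for all `n ≥ 2` and all `k ≥ 0` with `L_1, ..., L_k ≥ 1` the following holds.

(1) Small scales. If `L_(k+1) < 1` and `0 < t ≤ 1 / n`, then every point of `M_n` has distance at
least `(n t) ^ (3/2) / (C n L_1 ... L_k)` from `a_n + t`, and there is `t'` between `t / C` and `t`
and a point of `M_n` at distance at most `C (n t) ^ (3/2) / (n L_1 ... L_k)` from `a_n + t'`.

(2) Large scales. If `t ≥ C (1 + L_(k+1)) / n`, then every point of `M_n` has distance at least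
`1 / (C n L_1 ... L_k)` from `a_n + t`; if `L_(k+1) ≥ 1`, then for some `t ≥ L_(k+1) / (C n)` there
is a point of `M_n` at distance at most `C / (n L_1 ... L_k)` from `a_n + t`. -/
theorem result : ∃ C : ℝ, 1 ≤ C ∧ ∀ n : ℕ, 2 ≤ n → ∀ a : ℝ,
    a = (1 - 1 / (n : ℝ)) * (n : ℝ) ^ (-(1 / ((n : ℝ) - 1))) → ∀ k : ℕ,
    (∀ i < k, 1 ≤ Real.log^[i + 1] (n : ℝ)) →
    (Real.log^[k + 1] (n : ℝ) < 1 → ∀ t : ℝ, 0 < t → t ≤ 1 / n →
      (∀ c ∈ multibrotSet n,
        (n * t) ^ (3 / 2 : ℝ) / (C * n * ∏ i ∈ Finset.range k, Real.log^[i + 1] (n : ℝ)) ≤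
          dist c ((a + t : ℝ) : ℂ)) ∧
      ∃ t' : ℝ, t / C ≤ t' ∧ t' ≤ t ∧ ∃ c ∈ multibrotSet n,
        dist c ((a + t' : ℝ) : ℂ) ≤
          C * (n * t) ^ (3 / 2 : ℝ) / (n * ∏ i ∈ Finset.range k, Real.log^[i + 1] (n : ℝ))) ∧
    ((∀ t : ℝ, C * (1 + Real.log^[k + 1] (n : ℝ)) / n ≤ t → ∀ c ∈ multibrotSet n,
        1 / (C * n * ∏ i ∈ Finset.range k, Real.log^[i + 1] (n : ℝ)) ≤
          dist c ((a + t : ℝ) : ℂ)) ∧
      (1 ≤ Real.log^[k + 1] (n : ℝ) → ∃ t : ℝ, Real.log^[k + 1] (n : ℝ) / (C * n) ≤ t ∧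
        ∃ c ∈ multibrotSet n, dist c ((a + t : ℝ) : ℂ) ≤
          C / (n * ∏ i ∈ Finset.range k, Real.log^[i + 1] (n : ℝ)))) := by
  obtain ⟨C1, hC1, h1⟩ := T9h9.Cusp.lower_small
  obtain ⟨C2, hC2, h2⟩ := T9h9.Cusp.lower_large
  obtain ⟨C3, hC3, h3⟩ := T9h9.Cusp.upper_small
  obtain ⟨C4, hC4, h4⟩ := T9h9.Cusp.upper_large
  set C := C1 + C2 + C3 + C4 with hC
  refine ⟨C, by linarith, ?_⟩
  intro n hn a ha k hlog
  have hnr : (2:ℝ) ≤ n := by exact_mod_cast hn
  have hsr : (n : ℝ) ^ (-(1 / ((n : ℝ) - 1))) = sr n := by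
    rw [Real.rpow_def_of_pos (by linarith), sr]
    congr 1
    ring
  have hra : rr n = a := by
    rw [ha, hsr, rr_eq hn]; ring
  rw [← hra]
  set G := ∏ i ∈ Finset.range k, Real.log^[i + 1] (n:ℝ) with hG
  have hG1 : 1 ≤ G := T9h9.Cusp.prod_one_le hlog
  have hnG : 0 < (n:ℝ) * G := by positivity
  have h32 : ∀ x : ℝ, 0 < x → x ^ (3 / 2 : ℝ) = x * √x := by
    intro x hx
    rw [Real.sqrt_eq_rpow, show (3 / 2 : ℝ) = 1 + 1 / 2 by norm_num, Real.rpow_add hx,
      Real.rpow_one]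
  have hLk : 0 ≤ Real.log^[k + 1] (n:ℝ) := by
    rcases Nat.eq_zero_or_pos k with h | h
    · subst h; simpa using Real.log_nonneg (by linarith : (1:ℝ) ≤ n)
    · obtain ⟨j', rfl⟩ : ∃ j', k = j' + 1 := ⟨k - 1, by omega⟩
      rw [Function.iterate_succ_apply']
      exact Real.log_nonneg (hlog j' (by omega))
  refine ⟨fun hlogk t ht htn => ⟨fun c hc => ?_, ?_⟩, fun t ht c hc => ?_, fun hk1 => ?_⟩
  · refine le_trans ?_ (h1 n hn k hlog hlogk t ht htn c hc)
    have hnt : 0 < n * t := by positivity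
    rw [h32 _ hnt, mul_assoc C]
    apply div_le_div_of_nonneg_left (by positivity) (by positivity)
    exact mul_le_mul_of_nonneg_right (by linarith) hnG.le
  · obtain ⟨t', x1, x2, c, hc, x3⟩ := h3 n hn k hlog t ht htn
    have hnt : 0 < n * t := by positivity
    refine ⟨t', le_trans ?_ x1, x2, c, hc, x3.trans ?_⟩
    · exact div_le_div_of_nonneg_left ht.le (by linarith) (by linarith)
    · rw [h32 _ hnt]
      apply div_le_div_of_nonneg_right _ hnG.le
      exact mul_le_mul_of_nonneg_right (by linarith) (by positivity)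
  · have ht2 : C2 * (1 + Real.log^[k + 1] (n : ℝ)) / n ≤ t := by
      refine le_trans ?_ ht
      apply div_le_div_of_nonneg_right _ (by linarith)
      exact mul_le_mul_of_nonneg_right (by linarith) (by linarith)
    refine le_trans ?_ (h2 n hn k hlog t ht2 c hc)
    rw [mul_assoc C]
    apply div_le_div_of_nonneg_left (by norm_num) (by positivity)
    exact mul_le_mul_of_nonneg_right (by linarith) hnG.le
  · obtain ⟨t, x1, c, hc, x2⟩ := h4 n hn k (fun i hi => by
      rcases hi.eq_or_lt with h | h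
      · rw [h]; exact hk1
      · exact hlog i h)
    refine ⟨t, le_trans ?_ x1, c, hc, x2.trans ?_⟩
    · apply div_le_div_of_nonneg_left hLk (by positivity)
      exact mul_le_mul_of_nonneg_right (by linarith) (by linarith)
    · exact div_le_div_of_nonneg_right (by linarith) hnG.le

end Pool.Agent.Results.MP_fcb70f_an.CuspChannelWidth
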