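import Mathlib
import Pool.Prelude.Def_F_c31e40fa
import Pool.Agent.T9h9.Cusp.Climb

set_option autoImplicit false

open N62a1eb23

namespace Pool.Agent.Results.MP_fcb70f_an.CuspLowerBound

/-- The lower bound for the modulus of local connectivity of the Multibrot sets `M_n` at all small
scales, uniform in the degree.

Write `L_i` for the `i`-th iterated logarithm `log log ... log n`.  There is an absolute constant
`c > 0` such that for all `n ≥ 2`, all `k ≥ 0` with `L_1, ..., L_k ≥ 1` and all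
`0 < δ ≤ 1 / (n L_1 ... L_k)` there is a pair of distinct complex conjugate points `x`, `x̄` of
`M_n` at distance at most `δ` such that every connected subset of `M_n` which contains both has
diameter at least `(c / n) (n L_1 ... L_k δ) ^ (2/3)`.

So if `ω` is a function such that any two points `x, y` of `M_n` with `|x - y| ≤ δ` lie in a
connected subset of `M_n` of diameter at most `ω δ`, then
`ω δ ≥ (c / n) (n L_1 ... L_k δ) ^ (2/3)` for all `0 < δ ≤ 1 / (n L_1 ... L_k)`. -/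
theorem result : ∃ c : ℝ, 0 < c ∧ ∀ n : ℕ, 2 ≤ n → ∀ k : ℕ,
    (∀ i < k, 1 ≤ Real.log^[i + 1] (n : ℝ)) →
    ∀ δ : ℝ, 0 < δ → δ ≤ 1 / (n * ∏ i ∈ Finset.range k, Real.log^[i + 1] (n : ℝ)) →
    (∃ x ∈ multibrotSet n, (starRingEnd ℂ) x ∈ multibrotSet n ∧ x ≠ (starRingEnd ℂ) x ∧
      dist x ((starRingEnd ℂ) x) ≤ δ ∧
      ∀ S : Set ℂ, S ⊆ multibrotSet n → IsPreconnected S → x ∈ S → (starRingEnd ℂ) x ∈ S →
        c / n * ((n * ∏ i ∈ Finset.range k, Real.log^[i + 1] (n : ℝ)) * δ) ^ (2 / 3 : ℝ) ≤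
          Metric.diam S) ∧
    (∀ ω : ℝ → ℝ,
      (∀ x ∈ multibrotSet n, ∀ y ∈ multibrotSet n, dist x y ≤ δ →
        ∃ S : Set ℂ, S ⊆ multibrotSet n ∧ IsPreconnected S ∧ x ∈ S ∧ y ∈ S ∧
          Metric.diam S ≤ ω δ) →
      c / n * ((n * ∏ i ∈ Finset.range k, Real.log^[i + 1] (n : ℝ)) * δ) ^ (2 / 3 : ℝ) ≤ ω δ) := by
  obtain ⟨C, hC, h⟩ := T9h9.Cusp.small_scales
  refine ⟨1 / (C * C), by positivity, fun n hn k hlog δ hδ hδ1 => ?_⟩
  have hnr : (2:ℝ) ≤ n := by exact_mod_cast hn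
  have hG1 : 1 ≤ ∏ i ∈ Finset.range k, Real.log^[i + 1] (n:ℝ) := by
    have h := Finset.prod_le_prod (s := Finset.range k) (f := fun _ => (1:ℝ))
      (g := fun i => Real.log^[i + 1] (n:ℝ)) (fun _ _ => zero_le_one) (fun i hi =>
        hlog i (Finset.mem_range.mp hi))
    rw [Finset.prod_const_one] at h
    exact h
  set G := ∏ i ∈ Finset.range k, Real.log^[i + 1] (n:ℝ) with hG
  have hnG : 0 < (n:ℝ) * G := by positivity
  set y := (n:ℝ) * G * δ with hy
  have hy0 : 0 < y := by positivity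
  have hy1 : y ≤ 1 := by
    rw [le_div_iff₀ hnG] at hδ1
    rw [hy]; linarith
  have hyC : 0 < y / C := by positivity
  have hyC1 : y / C ≤ 1 := by rw [div_le_one (by linarith)]; linarith
  set ε := (y / C) ^ (2 / 3 : ℝ) with hε
  have hε0 : 0 < ε := Real.rpow_pos_of_pos hyC _
  have hε1 : ε ≤ 1 := Real.rpow_le_one hyC.le hyC1 (by norm_num)
  have hεε : ε * Real.sqrt ε = y / C := by
    rw [Real.sqrt_eq_rpow, hε, ← Real.rpow_mul hyC.le, ← Real.rpow_add hyC]
    norm_num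
  obtain ⟨x, x1, x2, x3, x4⟩ := h n hn k hlog ε hε0 hε1
  have x1' := T9h9.Cusp.conj_mem hn x1
  have hdist : dist x ((starRingEnd ℂ) x) ≤ δ := by
    refine x3.trans (le_of_eq ?_)
    rw [← hG, hεε, hy]
    field_simp
  have hεy : 1 / C * y ^ (2 / 3 : ℝ) ≤ ε := by
    rw [hε, Real.div_rpow hy0.le (by linarith)]
    have h1 : C ^ (2 / 3 : ℝ) ≤ C := by
      calc C ^ (2 / 3 : ℝ) ≤ C ^ (1 : ℝ) := Real.rpow_le_rpow_of_exponent_le hC (by norm_num)
        _ = C := Real.rpow_one C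
    have h2 : 0 < C ^ (2 / 3 : ℝ) := Real.rpow_pos_of_pos (by linarith) _
    have h3 : 0 < y ^ (2 / 3 : ℝ) := Real.rpow_pos_of_pos hy0 _
    rw [one_div, inv_mul_eq_div]
    exact div_le_div_of_nonneg_left h3.le h2 h1
  have hmain : 1 / (C * C) / n * y ^ (2 / 3 : ℝ) ≤ ε / (C * n) := by
    have h1 : 1 / (C * C) / n * y ^ (2 / 3 : ℝ) = (1 / C * y ^ (2 / 3 : ℝ)) / (C * n) := by
      field_simp
    rw [h1]
    exact div_le_div_of_nonneg_right hεy (by positivity)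
  refine ⟨⟨x, x1, x1', x2, hdist, fun S s1 s2 s3 s4 => hmain.trans (x4 S s1 s2 s3 s4)⟩, ?_⟩
  intro ω hω
  obtain ⟨S, s1, s2, s3, s4, s5⟩ := hω x x1 _ x1' hdist
  exact hmain.trans ((x4 S s1 s2 s3 s4).trans s5)

end Pool.Agent.Results.MP_fcb70f_an.CuspLowerBound
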