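import Mathlib
import Pool.Prelude.Def_F_c31e40fa
import Pool.Agent.T9h9.Cusp.Stair

set_option autoImplicit false

open N62a1eb23

namespace Pool.Agent.Results.MP_fcb70f_an.StaircaseLowerBound

/-- The staircase lower bound for the modulus of local connectivity of the Multibrot sets `M_n`.

Write `L_i` for the `i`-th iterated logarithm `log log ... log n`.  There is an absolute constant
`C` such that for all `n ≥ 2` and all `k ≥ 0` with `L_1, ..., L_(k+1) ≥ 1` there is a pair of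
distinct complex conjugate points `x`, `x̄` of `M_n` at distance at most `C / (n L_1 ... L_k)` such
that every connected subset of `M_n` which contains both has diameter at least `L_(k+1) / (C n)`.

So if `ω` is a nondecreasing function such that any two points `x, y` of `M_n` lie in a connected
subset of `M_n` of diameter at most `ω |x - y|`, then
`ω (C / (n L_1 ... L_k)) ≥ L_(k+1) / (C n)`. -/
theorem result : ∃ C : ℝ, 1 ≤ C ∧ ∀ n : ℕ, 2 ≤ n → ∀ k : ℕ,
    (∀ i ≤ k, 1 ≤ Real.log^[i + 1] (n : ℝ)) →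
    (∃ x ∈ multibrotSet n, (starRingEnd ℂ) x ∈ multibrotSet n ∧ x ≠ (starRingEnd ℂ) x ∧
      dist x ((starRingEnd ℂ) x) ≤
        C / (n * ∏ i ∈ Finset.range k, Real.log^[i + 1] (n : ℝ)) ∧
      ∀ S : Set ℂ, S ⊆ multibrotSet n → IsPreconnected S → x ∈ S → (starRingEnd ℂ) x ∈ S →
        Real.log^[k + 1] (n : ℝ) / (C * n) ≤ Metric.diam S) ∧
    (∀ ω : ℝ → ℝ, Monotone ω →
      (∀ x ∈ multibrotSet n, ∀ y ∈ multibrotSet n, ∃ S : Set ℂ, S ⊆ multibrotSet n ∧
        IsPreconnected S ∧ x ∈ S ∧ y ∈ S ∧ Metric.diam S ≤ ω (dist x y)) →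
      Real.log^[k + 1] (n : ℝ) / (C * n) ≤
        ω (C / (n * ∏ i ∈ Finset.range k, Real.log^[i + 1] (n : ℝ)))) := by
  obtain ⟨C, hC, h⟩ := T9h9.Cusp.large_scales
  refine ⟨C, hC, fun n hn k hlog => ?_⟩
  obtain ⟨x, x1, x2, x3, x4⟩ := h n hn k hlog
  have x1' := T9h9.Cusp.conj_mem hn x1
  refine ⟨⟨x, x1, x1', x2, x3, x4⟩, ?_⟩
  intro ω hω hS
  obtain ⟨S, s1, s2, s3, s4, s5⟩ := hS x x1 _ x1'
  exact (x4 S s1 s2 s3 s4).trans (s5.trans (hω x3))

end Pool.Agent.Results.MP_fcb70f_an.StaircaseLowerBound
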