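import Mathlib
import Pool.Prelude.Def_F_c31e40fa
import Pool.Agent.T9h9.Tan.Final

set_option autoImplicit false

open N62a1eb23

namespace Pool.Agent.Results.MP_fcb70f_an.TangencyLowerBound

/-- The lower bound of order `√δ` for the modulus of local connectivity of the Multibrot sets `M_n`
near the roots of the components of period two, uniform in the degree.

There is an absolute constant `c > 0` such that for all `n ≥ 2`, all `A` with
`A ^ (n - 1) = -1 / n` (so that `A (1 + 1 / n)` is the parameter where `z ^ n + c` has a fixed point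
of multiplier `-1`, the common boundary point of the main hyperbolic component and a component of
period two) and all `0 < δ ≤ c / n` there are two distinct points `x`, `y` of `M_n` at distance at
most `δ` from each other and at distance at most `√(δ / n)` from `A (1 + 1 / n)`, such that every
connected subset of `M_n` which contains both has diameter at least `c √(δ / n)`.

In particular, if `ω` is such that any two points of `M_n` at distance at most `δ` lie in a
connected subset of `M_n` of diameter at most `ω δ`, then `ω δ ≥ c √(δ / n)` for all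
`0 < δ ≤ c / n`. -/
theorem result : ∃ c : ℝ, 0 < c ∧ ∀ n : ℕ, 2 ≤ n → ∀ δ : ℝ, 0 < δ → δ ≤ c / n →
    (∀ A : ℂ, A ^ (n - 1) = -1 / n →
      ∃ x ∈ multibrotSet n, ∃ y ∈ multibrotSet n, x ≠ y ∧ dist x y ≤ δ ∧
        dist x (A * (1 + 1 / n)) ≤ √(δ / n) ∧ dist y (A * (1 + 1 / n)) ≤ √(δ / n) ∧
        ∀ S : Set ℂ, S ⊆ multibrotSet n → IsPreconnected S → x ∈ S → y ∈ S →
          c * √(δ / n) ≤ Metric.diam S) ∧
    (∀ ω : ℝ → ℝ,
      (∀ x ∈ multibrotSet n, ∀ y ∈ multibrotSet n, dist x y ≤ δ →
        ∃ S : Set ℂ, S ⊆ multibrotSet n ∧ IsPreconnected S ∧ x ∈ S ∧ y ∈ S ∧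
          Metric.diam S ≤ ω δ) →
      c * √(δ / n) ≤ ω δ) := by
  obtain ⟨c, hc, h⟩ := T9h9.Tan.main
  refine ⟨c, hc, fun n hn δ hδ hδn => ⟨fun A hA => h n hn A hA δ hδ hδn, fun ω hω => ?_⟩⟩
  obtain ⟨A, hA⟩ : ∃ A : ℂ, A ^ (n - 1) = -1 / n :=
    IsAlgClosed.exists_pow_nat_eq _ (by omega)
  obtain ⟨x, hx, y, hy, -, hd, -, -, hS⟩ := h n hn A hA δ hδ hδn
  obtain ⟨S, hSM, hSp, hxS, hyS, hSd⟩ := hω x hx y hy hd
  exact (hS S hSM hSp hxS hyS).trans hSd

end Pool.Agent.Results.MP_fcb70f_an.TangencyLowerBound
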